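import Mathlib
import Pool.Agent.H33.QH

set_option autoImplicit false

namespace Pool.Agent.Results.MP_aa2e78_ag.TwoNodes

open MvPolynomial Topology

/-- Singular point of the hypersurface defined by p: p and all first derivatives vanish. -/
def IsSing {n : ℕ} (p : MvPolynomial (Fin n) ℂ) (a : Fin n → ℂ) : Prop :=
  eval a p = 0 ∧ ∀ j, eval a (pderiv j p) = 0

/-- Quasihomogeneous with positive integer weights. -/
def QuasiHom {n : ℕ} (q : MvPolynomial (Fin n) ℂ) : Prop :=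
  ∃ w : Fin n → ℕ, (∀ i, 0 < w i) ∧ ∃ d : ℤ, ∀ t : ℂ, t ≠ 0 → ∀ x : Fin n → ℂ,
    eval (fun i => t ^ w i * x i) q = t ^ d * eval x q

theorem result :
    ∃ p : MvPolynomial (Fin 3) ℂ, Irreducible p ∧
      ContractibleSpace {x : Fin 3 → ℂ | eval x p = 0} ∧
      {a | IsSing p a}.Finite ∧
      (∃ a, IsSing p a ∧ ∃ U ∈ 𝓝 a, ∀ b ∈ U, IsSing p b → b = a) ∧
      ∀ φ : MvPolynomial (Fin 3) ℂ ≃ₐ[ℂ] MvPolynomial (Fin 3) ℂ, ¬ QuasiHom (φ p) := by
  refine ⟨Pool.Agent.H33.QH.P, Pool.Agent.H33.QH.irred_P, Pool.Agent.H33.QH.contr_P, ?_, ?_, ?_⟩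
  · refine (Set.toFinite {![0, 0, 0], ![1, 0, 0]}).subset fun a ha => ?_
    exact (Pool.Agent.H33.QH.sing_P a).1 ha
  · refine ⟨![0, 0, 0], (Pool.Agent.H33.QH.sing_P _).2 (Or.inl rfl), {![1, 0, 0]}ᶜ, ?_, ?_⟩
    · refine isOpen_compl_singleton.mem_nhds fun h => ?_
      have := congrFun (Set.mem_singleton_iff.1 h) 0
      simp at this
    · intro b hb hs
      exact ((Pool.Agent.H33.QH.sing_P b).1 hs).resolve_right hb
  · rintro φ ⟨w, hw, d, h⟩
    exact Pool.Agent.H33.QH.not_qh φ w hw d h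

end Pool.Agent.Results.MP_aa2e78_ag.TwoNodes
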